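import Mathlib
import Pool.Agent.H20.Ball
import Pool.Agent.H20.Game

/-!
# Reduction of the cop number problem to graphs of bounded degree
-/

set_option autoImplicit false

namespace Pool.Agent.H20E

open N6ef48c04 Pool.Agent.H20 Finset
open scoped Classical

universe u

variable {V : Type u} [Fintype V]

/-- A maximal set `S` with `Δ |S| ≤ |N[S]|`. -/
lemma exists_dense_set (G : SimpleGraph V) {Δ : ℕ} (hΔ : 1 ≤ Δ) :
    ∃ S : Finset V, Δ * S.card ≤ (bl G S 1).card ∧
      ∀ v, (bl G {v} 1 \ bl G S 1).card < Δ := by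
  let Fam := (univ : Finset (Finset V)).filter fun S => Δ * S.card ≤ (bl G S 1).card
  have hF : Fam.Nonempty := ⟨∅, by simp [Fam]⟩
  obtain ⟨S, hS, hmax⟩ := Finset.exists_max_image Fam Finset.card hF
  simp only [Fam, mem_filter, mem_univ, true_and] at hS hmax
  refine ⟨S, hS, fun v => ?_⟩
  by_contra hcon
  push Not at hcon
  by_cases hv : v ∈ S
  · have h1 : bl G {v} 1 ⊆ bl G S 1 := bl_mono (by simpa using hv) le_rfl
    rw [Finset.sdiff_eq_empty_iff_subset.mpr h1, card_empty] at hcon
    omega
  · have h2 : (bl G (S ∪ {v}) 1).card = (bl G S 1).card + (bl G {v} 1 \ bl G S 1).card := by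
      rw [bl_union, ← Finset.union_sdiff_self_eq_union, card_union_of_disjoint]
      exact Finset.disjoint_sdiff
    have h3 : (S ∪ {v}).card = S.card + 1 := by
      rw [card_union_of_disjoint (by simpa using hv), card_singleton]
    have h4 := hmax (S ∪ {v}) (by
      rw [h2, h3, mul_add, mul_one]
      exact Nat.add_le_add hS hcon)
    omega

/-- A function from `Fin a` covering a finite set with at most `a` elements. -/
lemma exists_cover (S : Finset V) (v0 : V) {a : ℕ} (h : S.card ≤ a) :
    ∃ s : Fin a → V, ∀ v ∈ S, ∃ i, s i = v := by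
  refine ⟨fun i => if hi : i.1 < S.card then (S.equivFin.symm ⟨i.1, hi⟩).1 else v0, ?_⟩
  intro v hv
  let j := S.equivFin ⟨v, hv⟩
  refine ⟨⟨j.1, lt_of_lt_of_le j.2 h⟩, ?_⟩
  simp only [j.2, dif_pos]
  simp [j]

/-- If the robber is in the closed neighbourhood of the static cops, the cops win. -/
lemma win_of_mem_bl {G : SimpleGraph V} (hG : G.Connected) {a k : ℕ} (S : Finset V)
    (s : Fin a → V) (hs : ∀ v ∈ S, ∃ i, s i = v) (c : Fin k → V) (r : V) (hr : r ∈ bl G S 1) :
    Win G (a + k) (Fin.append s c) r := by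
  obtain ⟨u, hu, hd⟩ := mem_bl.mp hr
  obtain ⟨i, rfl⟩ := hs u hu
  refine win_of_step_occ (c' := Function.update (Fin.append s c) (Fin.castAdd k i) r) ?_
    ⟨Fin.castAdd k i, by simp⟩
  intro j
  by_cases hj : j = Fin.castAdd k i
  · subst hj
    rw [Function.update_self, Fin.append_left]
    rcases Nat.le_one_iff_eq_zero_or_eq_one.mp hd with h0 | h1
    · exact Or.inl (hG.dist_eq_zero_iff.mp h0)
    · exact Or.inr (SimpleGraph.dist_eq_one_iff_adj.mp h1)
  · rw [Function.update_of_ne hj]
    exact Or.inl rfl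

/-- Transport of a winning strategy from an induced subgraph that the robber cannot leave. -/
lemma win_of_induce {G : SimpleGraph V} {a k : ℕ} (W : Set V) (s : Fin a → V)
    (hW : ∀ (r : W) (r' : V), Step G r r' → r' ∉ W → ∀ c : Fin k → V,
      Win G (a + k) (Fin.append s c) r') (m : ℕ) :
    ∀ (c : Fin k → W) (r : W), CopsCatchWithin (G.induce W) k m c r →
      Win G (a + k) (Fin.append s (fun i => (c i : V))) r := by
  have hocc : ∀ (c : Fin k → W) (r : W), (∃ i, c i = r) →
      ∃ j, Fin.append s (fun i => (c i : V)) j = (r : V) := by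
    rintro c r ⟨i, hi⟩
    exact ⟨Fin.natAdd a i, by rw [Fin.append_right, hi]⟩
  have hstep : ∀ (c c' : Fin k → W), (∀ i, Step (G.induce W) (c i) (c' i)) →
      ∀ j, Step G (Fin.append s (fun i => (c i : V)) j) (Fin.append s (fun i => (c' i : V)) j) := by
    intro c c' h j
    refine Fin.addCases (fun i => ?_) (fun i => ?_) j
    · rw [Fin.append_left, Fin.append_left]
      exact Or.inl rfl
    · rw [Fin.append_right, Fin.append_right]
      rcases h i with h1 | h1
      · exact Or.inl (congrArg Subtype.val h1)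
      · exact Or.inr (by simpa using h1)
  induction m with
  | zero =>
    intro c r h
    exact win_of_occ (hocc c r h)
  | succ m ih =>
    intro c r h
    rcases h with h | ⟨c', hs', h⟩
    · exact win_of_occ (hocc c r h)
    · rcases h with h | h
      · exact win_of_step_occ (hstep c c' hs') (hocc c' r h)
      · refine win_step (hstep c c' hs') fun r' hr' => ?_
        by_cases hrW : r' ∈ W
        · refine ih c' ⟨r', hrW⟩ (h ⟨r', hrW⟩ ?_)
          rcases hr' with h1 | h1
          · exact Or.inl (Subtype.ext h1)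
          · exact Or.inr (by simpa using h1)
        · exact hW r r' hr' hrW _

/-- **Bounded degree reduction.** -/
theorem copsWin_of_bounded {n Δ k : ℕ} (hΔ : 1 ≤ Δ)
    (hyp : ∀ (W : Type u) [Fintype W] (H : SimpleGraph W), H.Connected → Fintype.card W ≤ n →
      (∀ v, (bl H {v} 1).card ≤ Δ) → N6ef48c04.CopsWin H k) :
    ∀ (V : Type u) [Fintype V] (G : SimpleGraph V), G.Connected → Fintype.card V ≤ n →
      N6ef48c04.CopsWin G (n / Δ + k) := by
  intro V _ G hG hn
  obtain ⟨S, hS, hdeg⟩ := exists_dense_set G hΔ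
  have hScard : S.card ≤ n / Δ := by
    rw [Nat.le_div_iff_mul_le (by omega), mul_comm]
    exact hS.trans ((card_le_univ _).trans hn)
  obtain ⟨v0⟩ := hG.nonempty
  obtain ⟨s, hs⟩ := exists_cover S v0 hScard
  refine ⟨Fin.append s (fun _ => v0), fun x => ?_⟩
  change Win G (n / Δ + k) (Fin.append s (fun _ => v0)) x
  by_cases hx : x ∈ bl G S 1
  · exact win_of_mem_bl hG S s hs _ x hx
  -- the component of `x` in `G - N[S]`
  let U : Set V := {v | v ∉ bl G S 1}
  let W : Set V := {v | ∃ hv : v ∈ U, (G.induce U).Reachable ⟨x, hx⟩ ⟨v, hv⟩}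
  have hxW : x ∈ W := ⟨hx, SimpleGraph.Reachable.refl _⟩
  have hWU : ∀ v ∈ W, v ∉ bl G S 1 := fun v hv => hv.1
  have hstepW : ∀ v ∈ W, ∀ v', Step G v v' → v' ∉ bl G S 1 → v' ∈ W := by
    rintro v ⟨hv, hr⟩ v' hst hv'
    rcases hst with rfl | hadj
    · exact ⟨hv, hr⟩
    · refine ⟨hv', hr.trans (SimpleGraph.Adj.reachable ?_)⟩
      simpa using hadj
  have hWconn : (G.induce W).Connected := by
    rw [SimpleGraph.connected_iff_exists_forall_reachable]
    refine ⟨⟨x, hxW⟩, ?_⟩
    rintro ⟨v, hv, ⟨p⟩⟩
    -- lift the walk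
    have key : ∀ (a b : U) (p : (G.induce U).Walk a b) (ha : (a : V) ∈ W) (hb : (b : V) ∈ W),
        (G.induce W).Reachable ⟨a, ha⟩ ⟨b, hb⟩ := by
      intro a b p
      induction p with
      | nil => intro ha hb; exact SimpleGraph.Reachable.refl _
      | @cons a c b hadj p ih =>
        intro ha hb
        have hadj' : G.Adj a c := by simpa using hadj
        have hc : (c : V) ∈ W := hstepW a ha c (Or.inr hadj') c.2
        have h1 : (G.induce W).Adj ⟨a, ha⟩ ⟨c, hc⟩ := by simpa using hadj'
        exact h1.reachable.trans (ih hc hb)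
    exact key _ _ p hxW ⟨hv, ⟨p⟩⟩
  have hWcard : Fintype.card W ≤ n := (Fintype.card_subtype_le _).trans hn
  have hWdeg : ∀ v : W, (bl (G.induce W) {v} 1).card ≤ Δ := by
    intro v
    refine le_trans ?_ (hdeg v).le
    rw [← Finset.card_map (Function.Embedding.subtype (· ∈ W))]
    apply Finset.card_le_card
    intro z hz
    rw [Finset.mem_map] at hz
    obtain ⟨w, hw, rfl⟩ := hz
    rw [mem_sdiff]
    refine ⟨?_, hWU w.1 w.2⟩
    rw [mem_bl] at hw ⊢
    obtain ⟨u, hu, hd⟩ := hw
    rw [mem_singleton] at hu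
    subst hu
    refine ⟨u.1, mem_singleton_self _, ?_⟩
    rcases Nat.le_one_iff_eq_zero_or_eq_one.mp hd with h0 | h1
    · have : u = w := hWconn.dist_eq_zero_iff.mp h0
      rw [this]; simp
    · have h2 := SimpleGraph.dist_eq_one_iff_adj.mp h1
      have h3 : G.Adj u w := by simpa using h2
      exact (SimpleGraph.dist_eq_one_iff_adj.mpr h3).le
  obtain ⟨cH, hcH⟩ := hyp W (G.induce W) hWconn hWcard hWdeg
  -- walk to the positions
  let plan : ℕ → Fin (n / Δ + k) → V := fun t => Fin.append s (fun i => geo hG v0 (cH i) t)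
  have hplan0 : plan 0 = Fin.append s (fun _ => v0) := by
    simp only [plan, geo_zero]
  rw [← hplan0]
  refine win_of_plan plan x (fun t j => ?_) (fun r hr0 hr => ?_)
  · refine Fin.addCases (fun i => ?_) (fun i => ?_) j
    · simp only [plan, Fin.append_left]
      exact Or.inl rfl
    · simp only [plan, Fin.append_right]
      exact geo_step hG _ _ t
  · by_cases hex : ∃ t, r t ∈ bl G S 1
    · obtain ⟨t, ht⟩ := hex
      exact ⟨t, win_of_mem_bl hG S s hs _ _ ht⟩
    · push Not at hex
      have hrW : ∀ t, r t ∈ W := by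
        intro t
        induction t with
        | zero => rw [hr0]; exact hxW
        | succ t ih => exact hstepW _ ih _ (hr t) (hex (t + 1))
      refine ⟨Fintype.card V, ?_⟩
      have hpl : plan (Fintype.card V) = Fin.append s (fun i => (cH i : V)) := by
        simp only [plan]
        congr 1
        funext i
        exact geo_end hG _ _ (dist_lt_card hG _ _).le
      rw [hpl]
      obtain ⟨m, hm⟩ := hcH ⟨r (Fintype.card V), hrW _⟩
      refine win_of_induce W s ?_ m cH ⟨r (Fintype.card V), hrW _⟩ hm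
      intro r1 r' hst hr' c
      apply win_of_mem_bl hG S s hs
      by_contra h
      exact hr' (hstepW r1.1 r1.2 r' hst h)

end Pool.Agent.H20E
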