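import Pool.Agent.H20.Ball

/-!
Deterministic multi-scale nets in a connected finite graph.
-/

set_option autoImplicit false

namespace Pool.Agent.H20E

open Finset Pool.Agent.H20
open scoped Classical

variable {V : Type*} [Fintype V] {G : SimpleGraph V}

theorem mem_bl_singleton {u v : V} {r : ℕ} : v ∈ bl G {u} r ↔ G.dist u v ≤ r := by
  rw [mem_bl]; simp

/-- radii: `0, 1, 8, 64, ...` -/
def rho : ℕ → ℕ
  | 0 => 0
  | n + 1 => 8 ^ n

theorem rho_succ (n : ℕ) : 8 * rho n ≤ rho (n + 1) := by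
  cases n with
  | zero => simp [rho]
  | succ n => simp only [rho, pow_succ]; omega

theorem rho_succ_pos (n : ℕ) : 1 ≤ rho (n + 1) := Nat.one_le_pow _ _ (by norm_num)

theorem rho_mono {m n : ℕ} (h : m ≤ n) : rho m ≤ rho n :=
  monotone_nat_of_le_succ (f := rho) (fun n => by have := rho_succ n; omega) h

/-- the rich points of level `n` -/
noncomputable def rich (G : SimpleGraph V) (M : ℕ) : ℕ → Finset V
  | 0 => ∅
  | n + 1 => univ.filter fun v => M ≤ (bl G {v} (rho (n + 1))).card

/-- the zone of level `n` -/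
noncomputable def zn (G : SimpleGraph V) (M n : ℕ) : Finset V := bl G (rich G M n) (rho n)

theorem rich_mono_succ (M n : ℕ) : rich G M n ⊆ rich G M (n + 1) := by
  cases n with
  | zero => simp [rich]
  | succ n =>
    intro v hv
    simp only [rich, mem_filter, mem_univ, true_and] at hv ⊢
    exact hv.trans (card_le_card (bl_mono (Subset.refl _) (rho_mono (by omega))))

theorem rich_mono {M m n : ℕ} (h : m ≤ n) : rich G M m ⊆ rich G M n := by
  induction h with
  | refl => exact Subset.refl _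
  | step _ ih => exact ih.trans (rich_mono_succ M _)

theorem zn_mono {M m n : ℕ} (h : m ≤ n) : zn G M m ⊆ zn G M n :=
  bl_mono (rich_mono h) (rho_mono h)

theorem rich_sub_zn (M n : ℕ) : rich G M n ⊆ zn G M n := subset_bl _ _

theorem zn_zero (M : ℕ) : zn G M 0 = ∅ := by simp [zn, rich, bl_empty]

/-- maximal separated subsets -/
theorem exists_sep (S : Finset V) (D : ℕ) :
    ∃ N ⊆ S, (∀ x ∈ N, ∀ y ∈ N, x ≠ y → D < G.dist x y) ∧ ∀ x ∈ S, ∃ y ∈ N, G.dist x y ≤ D := by
  let F := S.powerset.filter fun N => ∀ x ∈ N, ∀ y ∈ N, x ≠ y → D < G.dist x y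
  have hF : F.Nonempty := ⟨∅, by simp [F]⟩
  obtain ⟨N, hN, hmax⟩ := exists_max_image F Finset.card hF
  simp only [F, mem_filter, mem_powerset] at hN hmax
  refine ⟨N, hN.1, hN.2, ?_⟩
  intro x hx
  by_contra hcon
  push Not at hcon
  have hxN : x ∉ N := by
    intro h
    have := hcon x h
    simp at this
  have := hmax (insert x N) ⟨insert_subset hx hN.1, by
    intro a ha b hb hab
    rw [mem_insert] at ha hb
    rcases ha with rfl | ha <;> rcases hb with rfl | hb
    · exact (hab rfl).elim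
    · exact hcon b hb
    · rw [SimpleGraph.dist_comm]; exact hcon a ha
    · exact hN.2 a ha b hb hab⟩
  rw [card_insert_of_notMem hxN] at this
  omega

/-- nearest point map -/
theorem exists_nearest {N : Finset V} (hN : N.Nonempty) :
    ∃ f : V → V, ∀ u, f u ∈ N ∧ ∀ w ∈ N, G.dist u (f u) ≤ G.dist u w := by
  have : ∀ u, ∃ x ∈ N, ∀ w ∈ N, G.dist u x ≤ G.dist u w := fun u =>
    exists_min_image N (fun w => G.dist u w) hN
  choose f hf using this
  exact ⟨f, hf⟩

/-- the new atoms of level `n + 1` are chosen in this separated set -/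
noncomputable def ys (G : SimpleGraph V) (M n : ℕ) : Finset V :=
  (exists_sep (G := G) (zn G M (n + 1) \ zn G M n) (rho n)).choose

theorem ys_sub (M n : ℕ) : ys G M n ⊆ zn G M (n + 1) \ zn G M n :=
  (exists_sep (G := G) (zn G M (n + 1) \ zn G M n) (rho n)).choose_spec.1

theorem ys_sep (M n : ℕ) : ∀ x ∈ ys G M n, ∀ y ∈ ys G M n, x ≠ y → rho n < G.dist x y :=
  (exists_sep (G := G) (zn G M (n + 1) \ zn G M n) (rho n)).choose_spec.2.1

theorem ys_cov (M n : ℕ) : ∀ x ∈ zn G M (n + 1) \ zn G M n, ∃ y ∈ ys G M n, G.dist x y ≤ rho n :=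
  (exists_sep (G := G) (zn G M (n + 1) \ zn G M n) (rho n)).choose_spec.2.2

/-- the cluster of level `n` with centre `w` -/
noncomputable def cl (G : SimpleGraph V) (M n : ℕ) (c : V → V) (w : V) : Finset V :=
  (zn G M n).filter fun u => c u = w

theorem mem_cl {M n : ℕ} {c : V → V} {w u : V} : u ∈ cl G M n c w ↔ u ∈ zn G M n ∧ c u = w := by
  simp [cl]

/-- good data of level `n`: a centre function and a set of atoms -/
structure Good (G : SimpleGraph V) (M n : ℕ) (c : V → V) (B : Finset V) : Prop where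
  ctr : ∀ v ∈ zn G M n, c v ∈ rich G M n
  near : ∀ v ∈ zn G M n, G.dist v (c v) ≤ 6 * rho n
  big : ∀ v ∈ zn G M n, M ≤ (cl G M n c (c v)).card
  sub : B ⊆ zn G M n
  lo : ∀ v ∈ zn G M n, M * (B ∩ cl G M n c (c v)).card ≤ (cl G M n c (c v)).card
  hi : ∀ v ∈ zn G M n, (cl G M n c (c v)).card ≤ 4 * M * (B ∩ cl G M n c (c v)).card

/-- sums over clusters -/
theorem Good.sum {M n : ℕ} {c : V → V} {B : Finset V} (h : Good G M n c B) {T : Finset V}
    (hT : T ⊆ zn G M n) (hcl : ∀ u ∈ T, ∀ v ∈ zn G M n, c v = c u → v ∈ T) :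
    M * (B ∩ T).card ≤ T.card ∧ T.card ≤ 4 * M * (B ∩ T).card := by
  have e1 : T.card = ∑ w ∈ T.image c, (cl G M n c w).card := by
    rw [card_eq_sum_card_image c T]
    refine sum_congr rfl fun w hw => ?_
    rw [mem_image] at hw
    obtain ⟨u, hu, rfl⟩ := hw
    congr 1
    ext v
    rw [mem_filter, mem_cl]
    exact ⟨fun hv => ⟨hT hv.1, hv.2⟩, fun hv => ⟨hcl u hu v hv.1 hv.2, hv.2⟩⟩
  have e2 : (B ∩ T).card = ∑ w ∈ T.image c, (B ∩ cl G M n c w).card := by
    rw [card_eq_sum_card_fiberwise (f := c) (s := B ∩ T) (t := T.image c)]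
    · refine sum_congr rfl fun w hw => ?_
      rw [mem_image] at hw
      obtain ⟨u, hu, rfl⟩ := hw
      congr 1
      ext v
      rw [mem_filter, mem_inter, mem_inter, mem_cl]
      exact ⟨fun hv => ⟨hv.1.1, hT hv.1.2, hv.2⟩,
        fun hv => ⟨⟨hv.1, hcl u hu v hv.2.1 hv.2.2⟩, hv.2.2⟩⟩
    · intro v hv
      rw [mem_coe, mem_inter] at hv
      exact mem_coe.2 (mem_image_of_mem c hv.2)
  constructor
  · rw [e1, e2, mul_sum]
    refine sum_le_sum fun w hw => ?_
    rw [mem_image] at hw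
    obtain ⟨u, hu, rfl⟩ := hw
    exact h.lo u (hT hu)
  · rw [e1, e2, mul_sum]
    refine sum_le_sum fun w hw => ?_
    rw [mem_image] at hw
    obtain ⟨u, hu, rfl⟩ := hw
    exact h.hi u (hT hu)

theorem good_zero (M : ℕ) : Good G M 0 id (∅ : Finset V) := by
  refine ⟨?_, ?_, ?_, ?_, ?_, ?_⟩ <;> simp [zn_zero]

/-- choice of the new atoms in one cluster -/
theorem exists_atoms {M a b : ℕ} (Y : Finset V)
    (hb : a ≤ 4 * M * (b + Y.card)) (hlow : M * b ≤ a) (hMa : M ≤ a) :
    ∃ K ⊆ Y, a ≤ 4 * M * (b + K.card) ∧ M * (b + K.card) ≤ a := by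
  have hex : ∃ k, a ≤ 4 * M * (b + k) := ⟨_, hb⟩
  let k := Nat.find hex
  have hk1 : a ≤ 4 * M * (b + k) := Nat.find_spec hex
  have hk2 : k ≤ Y.card := Nat.find_min' hex hb
  obtain ⟨K, hKY, hK⟩ := exists_subset_card_eq hk2
  refine ⟨K, hKY, by rw [hK]; exact hk1, ?_⟩
  rw [hK]
  rcases Nat.eq_zero_or_pos k with h0 | h0
  · rw [h0]; simpa using hlow
  · have h1 : ¬ a ≤ 4 * M * (b + (k - 1)) := Nat.find_min hex (by omega)
    have h2 : b + k = b + (k - 1) + 1 := by omega
    rw [h2]
    set x := b + (k - 1)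
    rcases Nat.eq_zero_or_pos x with hx | hx
    · rw [hx]; simpa using hMa
    · have h3 : M * (x + 1) ≤ 4 * M * x := by
        have : M * 1 ≤ M * x := Nat.mul_le_mul_left M hx
        have e1 : M * (x + 1) = M * x + M := by ring
        have e2 : 4 * M * x = 4 * (M * x) := by ring
        rw [e1, e2]; omega
      omega

/-- the step from level `n` to level `n + 1` -/
theorem Good.step (hG : G.Connected) {M n : ℕ} (hM : 1 ≤ M) {c : V → V} {B : Finset V}
    (h : Good G M n c B) :
    ∃ (c' : V → V) (B' : Finset V), Good G M (n + 1) c' B' ∧ B ⊆ B' ∧ B' \ B ⊆ ys G M n := by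
  obtain ⟨N, hNs, hNsep, hNcov⟩ := exists_sep (G := G) (rich G M (n + 1)) (4 * rho (n + 1))
  by_cases hNe : N.Nonempty
  swap
  · -- degenerate case: nothing is rich
    rw [not_nonempty_iff_eq_empty] at hNe
    have hr : rich G M (n + 1) = ∅ := by
      rw [eq_empty_iff_forall_notMem]
      intro x hx
      obtain ⟨y, hy, _⟩ := hNcov x hx
      rw [hNe] at hy
      exact notMem_empty _ hy
    have hz : zn G M (n + 1) = ∅ := by rw [zn, hr, bl_empty]
    have hB : B = ∅ := by
      have h1 := h.sub.trans (zn_mono (G := G) (M := M) (Nat.le_succ n))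
      rw [hz] at h1
      exact subset_empty.1 h1
    refine ⟨c, ∅, ⟨?_, ?_, ?_, ?_, ?_, ?_⟩, by rw [hB], by simp⟩ <;> simp [hz]
  obtain ⟨nr, hnr⟩ := exists_nearest (G := G) hNe
  have hnrN : ∀ u, nr u ∈ N := fun u => (hnr u).1
  -- nearest point facts
  have n1 : ∀ u ∈ rich G M (n + 1), G.dist u (nr u) ≤ 4 * rho (n + 1) := by
    intro u hu
    obtain ⟨y, hy, hd⟩ := hNcov u hu
    exact ((hnr u).2 y hy).trans hd
  have n2 : ∀ u ∈ zn G M (n + 1), G.dist u (nr u) ≤ 5 * rho (n + 1) := by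
    intro u hu
    rw [zn, mem_bl] at hu
    obtain ⟨w, hw, hd⟩ := hu
    have h1 := n1 w hw
    have h2 := (hnr u).2 (nr w) (hnrN w)
    have h3 := hG.dist_triangle (u := u) (v := w) (w := nr w)
    rw [SimpleGraph.dist_comm] at hd
    omega
  have n3 : ∀ u, ∀ w ∈ N, G.dist u w ≤ 2 * rho (n + 1) → nr u = w := by
    intro u w hw hd
    by_contra hne
    have h1 := hNsep (nr u) (hnrN u) w hw hne
    have h2 := (hnr u).2 w hw
    have h3 := hG.dist_triangle (u := nr u) (v := u) (w := w)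
    rw [SimpleGraph.dist_comm (u := nr u) (v := u)] at h3
    omega
  -- the map to the separated set `ys`
  have hy0 : ∀ u, ∃ y, (u ∈ ys G M n → y = u) ∧
      (u ∈ zn G M (n + 1) \ zn G M n → y ∈ ys G M n ∧ G.dist u y ≤ rho n) := by
    intro u
    by_cases hu : u ∈ ys G M n
    · exact ⟨u, fun _ => rfl, fun _ => ⟨hu, by simp⟩⟩
    · by_cases hu' : u ∈ zn G M (n + 1) \ zn G M n
      · obtain ⟨y, hy, hd⟩ := ys_cov M n u hu'
        exact ⟨y, fun h => (hu h).elim, fun _ => ⟨hy, hd⟩⟩
      · exact ⟨u, fun _ => rfl, fun h => (hu' h).elim⟩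
  choose y hy1 hy2 using hy0
  let c' : V → V := fun v => if v ∈ zn G M n then nr (c v) else nr (y v)
  have hc'1 : ∀ v ∈ zn G M n, c' v = nr (c v) := fun v hv => if_pos hv
  have hc'2 : ∀ v, v ∉ zn G M n → c' v = nr (y v) := fun v hv => if_neg hv
  have hc'N : ∀ v, c' v ∈ N := by
    intro v
    by_cases hv : v ∈ zn G M n
    · rw [hc'1 v hv]; exact hnrN _
    · rw [hc'2 v hv]; exact hnrN _
  have hrs := rho_succ n
  have hzm : zn G M n ⊆ zn G M (n + 1) := zn_mono (Nat.le_succ n)
  -- distance to the centre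
  have hnear : ∀ v ∈ zn G M (n + 1), G.dist v (c' v) ≤ 6 * rho (n + 1) := by
    intro v hv
    by_cases hv' : v ∈ zn G M n
    · rw [hc'1 v hv']
      have h1 := h.near v hv'
      have h2 := n1 (c v) (rich_mono_succ M n (h.ctr v hv'))
      have h3 := hG.dist_triangle (u := v) (v := c v) (w := nr (c v))
      omega
    · rw [hc'2 v hv']
      obtain ⟨h1, h2⟩ := hy2 v (mem_sdiff.2 ⟨hv, hv'⟩)
      have h3 := n2 (y v) (mem_sdiff.1 (ys_sub M n h1)).1
      have h4 := hG.dist_triangle (u := v) (v := y v) (w := nr (y v))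
      omega
  -- clusters are large
  have hbigN : ∀ w ∈ N, M ≤ (cl G M (n + 1) c' w).card := by
    intro w hw
    have hwr : w ∈ rich G M (n + 1) := hNs hw
    have hball : bl G {w} (rho (n + 1)) ⊆ zn G M (n + 1) :=
      bl_mono (singleton_subset_iff.2 hwr) le_rfl
    have hMb : M ≤ (bl G {w} (rho (n + 1))).card := by
      simpa [rich] using hwr
    by_cases hd : ∃ u ∈ bl G {w} (rho (n + 1)), u ∈ zn G M n
    · obtain ⟨u, hu, huz⟩ := hd
      rw [mem_bl_singleton] at hu
      have h1 := h.near u huz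
      have h2 : G.dist (c u) w ≤ 2 * rho (n + 1) := by
        have h3 := hG.dist_triangle (u := c u) (v := u) (w := w)
        rw [SimpleGraph.dist_comm (u := c u) (v := u),
          SimpleGraph.dist_comm (u := u) (v := w)] at h3
        omega
      have h4 := n3 (c u) w hw h2
      refine (h.big u huz).trans (card_le_card ?_)
      intro v hv
      rw [mem_cl] at hv ⊢
      refine ⟨hzm hv.1, ?_⟩
      rw [hc'1 v hv.1, hv.2, h4]
    · push Not at hd
      refine hMb.trans (card_le_card ?_)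
      intro u hu
      have huz := hd u hu
      have huz' := hball hu
      rw [mem_bl_singleton] at hu
      rw [mem_cl]
      refine ⟨huz', ?_⟩
      rw [hc'2 u huz]
      obtain ⟨h1, h2⟩ := hy2 u (mem_sdiff.2 ⟨huz', huz⟩)
      apply n3 (y u) w hw
      have h3 := hG.dist_triangle (u := y u) (v := u) (w := w)
      rw [SimpleGraph.dist_comm (u := y u) (v := u),
        SimpleGraph.dist_comm (u := u) (v := w)] at h3
      omega
  -- the old part of a new cluster
  have hold : ∀ w, M * (B ∩ cl G M (n + 1) c' w).card ≤ (cl G M (n + 1) c' w ∩ zn G M n).card ∧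
      (cl G M (n + 1) c' w ∩ zn G M n).card ≤ 4 * M * (B ∩ cl G M (n + 1) c' w).card := by
    intro w
    have e : B ∩ (cl G M (n + 1) c' w ∩ zn G M n) = B ∩ cl G M (n + 1) c' w := by
      ext v
      simp only [mem_inter]
      exact ⟨fun hv => ⟨hv.1, hv.2.1⟩, fun hv => ⟨hv.1, hv.2, h.sub hv.1⟩⟩
    rw [← e]
    apply h.sum inter_subset_right
    intro u hu v hv huv
    rw [mem_inter, mem_cl] at hu ⊢
    refine ⟨⟨hzm hv, ?_⟩, hv⟩
    rw [hc'1 v hv, huv, ← hc'1 u hu.2]
    exact hu.1.2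
  -- the new part of a new cluster
  have hnew : ∀ w, (cl G M (n + 1) c' w \ zn G M n).card ≤
      M * (ys G M n ∩ cl G M (n + 1) c' w).card := by
    intro w
    have hsub : cl G M (n + 1) c' w \ zn G M n ⊆
        (ys G M n ∩ cl G M (n + 1) c' w).biUnion fun z => bl G {z} (rho n) := by
      intro u hu
      rw [mem_sdiff, mem_cl] at hu
      obtain ⟨h1, h2⟩ := hy2 u (mem_sdiff.2 ⟨hu.1.1, hu.2⟩)
      rw [mem_biUnion]
      refine ⟨y u, mem_inter.2 ⟨h1, ?_⟩, ?_⟩
      · rw [mem_cl]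
        have h3 := mem_sdiff.1 (ys_sub M n h1)
        refine ⟨h3.1, ?_⟩
        rw [hc'2 _ h3.2, hy1 (y u) h1, ← hc'2 u hu.2]
        exact hu.1.2
      · rw [mem_bl_singleton, SimpleGraph.dist_comm]; exact h2
    refine (card_le_card hsub).trans ?_
    refine card_biUnion_le.trans ?_
    rw [mul_comm]
    refine (sum_le_card_nsmul _ _ M ?_).trans (by simp)
    intro z hz
    have hz' := mem_sdiff.1 (ys_sub M n (mem_inter.1 hz).1)
    cases n with
    | zero =>
      have : bl G {z} (rho 0) ⊆ {z} := by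
        intro v hv
        rw [mem_bl_singleton] at hv
        simp only [rho, Nat.le_zero] at hv
        rw [mem_singleton]
        exact (hG.dist_eq_zero_iff.1 hv).symm
      exact (card_le_card this).trans (by simpa using hM)
    | succ n =>
      have h3 : z ∉ rich G M (n + 1) := fun hh => hz'.2 (rich_sub_zn M (n + 1) hh)
      simp only [rich, mem_filter, mem_univ, true_and, not_le] at h3
      exact h3.le
  -- choice of the atoms
  have hat : ∀ w, ∃ K ⊆ ys G M n ∩ cl G M (n + 1) c' w, w ∈ N →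
      (cl G M (n + 1) c' w).card ≤ 4 * M * ((B ∩ cl G M (n + 1) c' w).card + K.card) ∧
      M * ((B ∩ cl G M (n + 1) c' w).card + K.card) ≤ (cl G M (n + 1) c' w).card := by
    intro w
    by_cases hw : w ∈ N
    · have hsplit : (cl G M (n + 1) c' w).card =
          (cl G M (n + 1) c' w ∩ zn G M n).card + (cl G M (n + 1) c' w \ zn G M n).card :=
        (card_inter_add_card_sdiff _ _).symm
      obtain ⟨o1, o2⟩ := hold w
      have o3 := hnew w
      obtain ⟨K, hK1, hK2, hK3⟩ := exists_atoms (b := (B ∩ cl G M (n + 1) c' w).card)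
        (ys G M n ∩ cl G M (n + 1) c' w) (by
          have e : 4 * M * ((B ∩ cl G M (n + 1) c' w).card +
              (ys G M n ∩ cl G M (n + 1) c' w).card) =
              4 * M * (B ∩ cl G M (n + 1) c' w).card +
              4 * (M * (ys G M n ∩ cl G M (n + 1) c' w).card) := by ring
          rw [e]; omega) (by omega) (hbigN w hw)
      exact ⟨K, hK1, fun _ => ⟨hK2, hK3⟩⟩
    · exact ⟨∅, empty_subset _, fun hh => (hw hh).elim⟩
  choose K hK1 hK2 using hat
  let P : Finset V := (ys G M n).filter fun u => u ∈ K (c' u)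
  have hP : P ⊆ ys G M n := filter_subset _ _
  have hPz : P ⊆ zn G M (n + 1) := fun v hv => (mem_sdiff.1 (ys_sub M n (hP hv))).1
  have hPn : ∀ v ∈ P, v ∉ zn G M n := fun v hv => (mem_sdiff.1 (ys_sub M n (hP hv))).2
  have hPcl : ∀ w, P ∩ cl G M (n + 1) c' w = K w := by
    intro w
    ext u
    rw [mem_inter, mem_cl]
    simp only [P, mem_filter]
    constructor
    · rintro ⟨⟨_, h2⟩, _, h4⟩
      rw [← h4]; exact h2
    · intro hu
      have h1 := mem_inter.1 (hK1 w hu)
      have h2 := mem_cl.1 h1.2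
      exact ⟨⟨h1.1, by rw [h2.2]; exact hu⟩, h2⟩
  have hcard : ∀ w, ((B ∪ P) ∩ cl G M (n + 1) c' w).card =
      (B ∩ cl G M (n + 1) c' w).card + (K w).card := by
    intro w
    rw [union_inter_distrib_right, card_union_of_disjoint, hPcl]
    rw [disjoint_left]
    intro v hv hv'
    exact hPn v (mem_inter.1 hv').1 (h.sub (mem_inter.1 hv).1)
  refine ⟨c', B ∪ P, ⟨?_, hnear, ?_, ?_, ?_, ?_⟩, subset_union_left, ?_⟩
  · intro v _
    exact hNs (hc'N v)
  · intro v _
    exact hbigN _ (hc'N v)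
  · exact union_subset (h.sub.trans hzm) hPz
  · intro v _
    rw [hcard]
    exact (hK2 _ (hc'N v)).2
  · intro v _
    rw [hcard]
    exact (hK2 _ (hc'N v)).1
  · intro v hv
    rw [mem_sdiff, mem_union] at hv
    rcases hv.1 with h1 | h1
    · exact (hv.2 h1).elim
    · exact hP h1

/-- the whole sequence of levels -/
theorem exists_levels (hG : G.Connected) {M : ℕ} (hM : 1 ≤ M) :
    ∃ (c : ℕ → V → V) (B : ℕ → Finset V), ∀ n, Good G M n (c n) (B n) ∧ B n ⊆ B (n + 1) ∧
      B (n + 1) \ B n ⊆ ys G M n := by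
  let X : ℕ → Type _ := fun n => {p : (V → V) × Finset V // Good G M n p.1 p.2}
  have hst : ∀ n (p : X n), ∃ p' : X (n + 1), p.1.2 ⊆ p'.1.2 ∧ p'.1.2 \ p.1.2 ⊆ ys G M n := by
    intro n p
    obtain ⟨c', B', h1, h2, h3⟩ := p.2.step hG hM
    exact ⟨⟨(c', B'), h1⟩, h2, h3⟩
  choose f hf using hst
  let s : ∀ n, X n := fun n => Nat.rec ⟨(id, ∅), good_zero M⟩ (fun n p => f n p) n
  refine ⟨fun n => (s n).1.1, fun n => (s n).1.2, fun n => ⟨(s n).2, ?_, ?_⟩⟩
  · exact (hf n (s n)).1
  · exact (hf n (s n)).2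

theorem exists_net (hG : G.Connected) {M : ℕ} (hM : 1 ≤ M) :
    ∃ Q : Finset V,
      (∀ L, 1 ≤ L → ∀ A : Finset V, (∀ v ∈ A, M ≤ (bl G {v} L).card) →
        4 * M * A.card ≤ (bl G A L).card → A.card ≤ (Q ∩ bl G A (97 * L)).card) ∧
      (∀ r, 1 ≤ r → ∀ A : Finset V,
        M * (Q ∩ bl G A r).card ≤ (bl G A (193 * r)).card + 2 * M * A.card) := by
  obtain ⟨c, B, hcB⟩ := exists_levels hG hM
  have hmono : ∀ {m n}, m ≤ n → B m ⊆ B n := by
    intro m n hmn
    induction hmn with
    | refl => exact Subset.refl _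
    | step _ ih => exact ih.trans (hcB _).2.1
  -- scale selection
  have hscale : ∀ L, 1 ≤ L → ∃ j, L ≤ rho (j + 1) ∧ rho (j + 1) ≤ 8 * L := by
    intro L hL
    have hex : ∃ j, L ≤ rho (j + 1) := ⟨L, (Nat.lt_pow_self (by norm_num)).le⟩
    refine ⟨Nat.find hex, Nat.find_spec hex, ?_⟩
    rcases Nat.eq_zero_or_pos (Nat.find hex) with h0 | h0
    · rw [h0]; simp only [rho, pow_zero]; omega
    · obtain ⟨i, hi⟩ : ∃ i, Nat.find hex = i + 1 := ⟨Nat.find hex - 1, by omega⟩
      have h1 := Nat.find_min hex (m := i) (by omega)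
      rw [hi]
      simp only [rho, pow_succ] at h1 ⊢
      omega
  refine ⟨univ.filter fun v => ∃ n, v ∈ B n, ?_, ?_⟩
  · intro L hL A hA hcard
    obtain ⟨j, hj1, hj2⟩ := hscale L hL
    obtain ⟨hgood, -, -⟩ := hcB (j + 1)
    have hAr : A ⊆ rich G M (j + 1) := by
      intro v hv
      simp only [rich, mem_filter, mem_univ, true_and]
      exact (hA v hv).trans (card_le_card (bl_mono (Subset.refl _) hj1))
    have hS : bl G A L ⊆ zn G M (j + 1) := bl_mono hAr hj1
    obtain ⟨T, hT⟩ : ∃ T : Finset V, ∀ v, v ∈ T ↔ v ∈ zn G M (j + 1) ∧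
        ∃ s ∈ bl G A L, c (j + 1) s = c (j + 1) v :=
      ⟨univ.filter fun v => v ∈ zn G M (j + 1) ∧ ∃ s ∈ bl G A L, c (j + 1) s = c (j + 1) v,
        fun v => by simp only [mem_filter, mem_univ, true_and]⟩
    have hST : bl G A L ⊆ T := fun v hv => (hT v).2 ⟨hS hv, v, hv, rfl⟩
    have hsum := (hgood.sum (T := T) (fun v hv => ((hT v).1 hv).1) (by
      intro u hu v hv huv
      obtain ⟨s, hs, hsu⟩ := ((hT u).1 hu).2
      exact (hT v).2 ⟨hv, s, hs, hsu.trans huv.symm⟩)).2
    have h1 : 4 * M * A.card ≤ 4 * M * (B (j + 1) ∩ T).card :=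
      hcard.trans ((card_le_card hST).trans hsum)
    have h2 : A.card ≤ (B (j + 1) ∩ T).card := Nat.le_of_mul_le_mul_left h1 (by omega)
    refine h2.trans (card_le_card ?_)
    intro b hb
    simp only [mem_inter, hT, mem_filter, mem_univ, true_and] at hb ⊢
    refine ⟨⟨j + 1, hb.1⟩, ?_⟩
    obtain ⟨s, hs, hsb⟩ := hb.2.2
    have d1 := hgood.near s (hS hs)
    have d2 := hgood.near b hb.2.1
    rw [mem_bl] at hs ⊢
    obtain ⟨a, ha, had⟩ := hs
    refine ⟨a, ha, ?_⟩
    have t1 := hG.dist_triangle (u := a) (v := s) (w := b)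
    have t2 := hG.dist_triangle (u := s) (v := c (j + 1) s) (w := b)
    rw [hsb, SimpleGraph.dist_comm (u := c (j + 1) b) (v := b), ← hsb] at t2
    rw [← hsb] at d2
    omega
  · intro r hr A
    obtain ⟨J, hJ1, hJ2⟩ := hscale (2 * r) (by omega)
    obtain ⟨hgood, -, -⟩ := hcB (J + 1)
    set Q : Finset V := univ.filter fun v => ∃ n, v ∈ B n with hQ
    -- atoms of level `J + 1`
    obtain ⟨T, hT⟩ : ∃ T : Finset V, ∀ v, v ∈ T ↔ v ∈ zn G M (J + 1) ∧
        ∃ s ∈ B (J + 1) ∩ bl G A r, c (J + 1) s = c (J + 1) v :=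
      ⟨univ.filter fun v => v ∈ zn G M (J + 1) ∧
        ∃ s ∈ B (J + 1) ∩ bl G A r, c (J + 1) s = c (J + 1) v,
        fun v => by simp only [mem_filter, mem_univ, true_and]⟩
    have hsum := (hgood.sum (T := T) (fun v hv => ((hT v).1 hv).1) (by
      intro u hu v hv huv
      obtain ⟨s, hs, hsu⟩ := ((hT u).1 hu).2
      exact (hT v).2 ⟨hv, s, hs, hsu.trans huv.symm⟩)).1
    have h1 : M * (B (J + 1) ∩ bl G A r).card ≤ (bl G A (193 * r)).card := by
      refine (Nat.mul_le_mul_left M (card_le_card ?_)).trans (hsum.trans (card_le_card ?_))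
      · intro b hb
        exact mem_inter.2 ⟨(mem_inter.1 hb).1, (hT b).2 ⟨hgood.sub (mem_inter.1 hb).1,
          b, hb, rfl⟩⟩
      · intro v hv
        simp only [hT, mem_inter] at hv
        obtain ⟨hvz, s, ⟨hsB, hsA⟩, hsv⟩ := hv
        have d1 := hgood.near s (hgood.sub hsB)
        have d2 := hgood.near v hvz
        rw [mem_bl] at hsA ⊢
        obtain ⟨a, ha, had⟩ := hsA
        refine ⟨a, ha, ?_⟩
        have t1 := hG.dist_triangle (u := a) (v := s) (w := v)
        have t2 := hG.dist_triangle (u := s) (v := c (J + 1) s) (w := v)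
        rw [hsv, SimpleGraph.dist_comm (u := c (J + 1) v) (v := v), ← hsv] at t2
        rw [← hsv] at d2
        omega
    -- the other atoms
    have hlev : ∀ b ∈ Q \ B (J + 1), ∃ j, J + 1 ≤ j ∧ b ∈ ys G M j := by
      intro b hb
      rw [mem_sdiff, hQ, mem_filter] at hb
      obtain ⟨⟨-, hex⟩, hb2⟩ := hb
      have hs := Nat.find_spec hex
      have hpos : J + 1 < Nat.find hex := by
        by_contra hle
        exact hb2 (hmono (not_lt.1 hle) hs)
      obtain ⟨i, hi⟩ : ∃ i, Nat.find hex = i + 1 := ⟨Nat.find hex - 1, by omega⟩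
      have hn := Nat.find_min hex (m := i) (by omega)
      rw [hi] at hs
      exact ⟨i, by omega, (hcB i).2.2 (mem_sdiff.2 ⟨hs, hn⟩)⟩
    have htwo : ∀ a, ((Q \ B (J + 1)) ∩ bl G {a} r).card ≤ 2 := by
      intro a
      by_contra hgt
      rw [not_le] at hgt
      -- levels
      have hl : ∀ b, ∃ j, b ∈ Q \ B (J + 1) → J + 1 ≤ j ∧ b ∈ ys G M j := by
        intro b
        by_cases hb : b ∈ Q \ B (J + 1)
        · obtain ⟨j, hj⟩ := hlev b hb
          exact ⟨j, fun _ => hj⟩
        · exact ⟨0, fun hh => (hb hh).elim⟩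
      choose lev hlevs using hl
      set S := (Q \ B (J + 1)) ∩ bl G {a} r with hS
      have hSne : S.Nonempty := card_pos.1 (by omega)
      obtain ⟨b0, hb0, hmin⟩ := exists_min_image S lev hSne
      have hdist : ∀ b ∈ S, ∀ b' ∈ S, G.dist b b' ≤ 2 * r := by
        intro b hb b' hb'
        have e1 := mem_bl_singleton.1 (mem_inter.1 hb).2
        have e2 := mem_bl_singleton.1 (mem_inter.1 hb').2
        have t1 := hG.dist_triangle (u := b) (v := a) (w := b')
        rw [SimpleGraph.dist_comm (u := b) (v := a)] at t1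
        omega
      have hinj : Set.InjOn lev S := by
        intro b hb b' hb' hbb
        by_contra hne
        have f1 := hlevs b (mem_inter.1 (mem_coe.1 hb)).1
        have f2 := hlevs b' (mem_inter.1 (mem_coe.1 hb')).1
        rw [← hbb] at f2
        have f3 := ys_sep M (lev b) b f1.2 b' f2.2 hne
        have f4 := hdist b hb b' hb'
        have f5 := rho_mono f1.1
        omega
      have hrange : ∀ b ∈ S, lev b ∈ Finset.Icc (lev b0) (lev b0 + 1) := by
        intro b hb
        rw [Finset.mem_Icc]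
        refine ⟨hmin b hb, ?_⟩
        by_contra hcon
        have g1 := hlevs b (mem_inter.1 hb).1
        have g0 := hlevs b0 (mem_inter.1 hb0).1
        have g2 := mem_sdiff.1 (ys_sub M (lev b) g1.2)
        have g3 := mem_sdiff.1 (ys_sub M (lev b0) g0.2)
        apply g2.2
        have g4 : zn G M (lev b0 + 2) ⊆ zn G M (lev b) := zn_mono (by omega)
        apply g4
        have g5 := g3.1
        rw [zn, mem_bl] at g5 ⊢
        obtain ⟨w, hw, hwd⟩ := g5
        refine ⟨w, rich_mono (by omega) hw, ?_⟩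
        have t1 := hG.dist_triangle (u := w) (v := b0) (w := b)
        have t2 := hdist b0 hb0 b hb
        have t3 := rho_mono (show J + 1 ≤ lev b0 + 1 by omega)
        have t4 : 8 * rho (lev b0 + 1) ≤ rho (lev b0 + 2) := rho_succ (lev b0 + 1)
        omega
      have hc := card_le_card_of_injOn lev hrange hinj
      rw [Nat.card_Icc] at hc
      omega
    have h2 : ((Q \ B (J + 1)) ∩ bl G A r).card ≤ 2 * A.card := by
      have hsub : (Q \ B (J + 1)) ∩ bl G A r ⊆
          A.biUnion fun a => (Q \ B (J + 1)) ∩ bl G {a} r := by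
        intro b hb
        rw [mem_inter, mem_bl] at hb
        obtain ⟨hb1, a, ha, hd⟩ := hb
        exact mem_biUnion.2 ⟨a, ha, mem_inter.2 ⟨hb1, mem_bl_singleton.2 hd⟩⟩
      refine (card_le_card hsub).trans (card_biUnion_le.trans ?_)
      refine (sum_le_card_nsmul _ _ 2 (fun a _ => htwo a)).trans ?_
      rw [smul_eq_mul, mul_comm]
    have h3 : (Q ∩ bl G A r).card ≤ (B (J + 1) ∩ bl G A r).card +
        ((Q \ B (J + 1)) ∩ bl G A r).card := by
      refine le_trans (card_le_card ?_) (card_union_le _ _)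
      intro b hb
      rw [mem_inter] at hb
      rw [mem_union, mem_inter, mem_inter, mem_sdiff]
      by_cases hbJ : b ∈ B (J + 1)
      · exact Or.inl ⟨hbJ, hb.2⟩
      · exact Or.inr ⟨⟨hb.1, hbJ⟩, hb.2⟩
    calc M * (Q ∩ bl G A r).card
        ≤ M * ((B (J + 1) ∩ bl G A r).card + ((Q \ B (J + 1)) ∩ bl G A r).card) :=
          Nat.mul_le_mul_left M h3
      _ = M * (B (J + 1) ∩ bl G A r).card + M * ((Q \ B (J + 1)) ∩ bl G A r).card := by ring
      _ ≤ (bl G A (193 * r)).card + M * (2 * A.card) :=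
          Nat.add_le_add h1 (Nat.mul_le_mul_left M h2)
      _ = (bl G A (193 * r)).card + 2 * M * A.card := by ring

end Pool.Agent.H20E
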